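import Pool.Agent.R318.TT.L

/-! # Nagao's averages for almost all members of a two-parameter family of elliptic curves

Let `A` and `B` be polynomials in `T` and `Z` with integer coefficients. For a polynomial `β` in `T` and integers `v 0` and
`v 1` let `E_v` be the elliptic curve `y ^ 2 = x ^ 3 + A x + B` over `ℚ(T)` with `Z = β(T) + v 0 + v 1 T`, and let `A_p(E_v)`
be the mean over `t` modulo `p` of the traces of its fibres (`nag1`, as in the problem). Let `A_p(E)` be the mean of the traces
over all pairs `(t, z)` modulo `p` (`nag2`), for the two-parameter family. By Nagao's conjecture `- A_p(E_v)` and `- A_p(E)`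
are on average the ranks over `ℚ(T)` and over `ℚ(T, Z)`, and these are equal for general `v` (specialisation).

Theorem: `v j = c j + κ j w j`, where `w 0` and `w 1` are independent random integers with `k` independent digits in base `b`,
whose distributions are arbitrary, except that two independent copies of a digit differ with a probability of at least `η`
(for instance the integers without some digit, or all the integers below `b ^ k`). With probability at least
`1 - C X ^ (- δ)`, for EVERY `x ≥ X` with `x ^ W ≤ b ^ k` the sum of the `(A_p(E_v) - A_p(E)) log p` over the primes `p ≤ x` is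
at most `x ^ (1 / 2 + δ)`, if the very few primes are omitted for which the difference is larger than `p ^ ((1 - δ) / 2)`;
there are at most `x ^ (2 δ)` of these up to `x` (in fact only primes of bad reduction, by Deligne's theorem, and small
primes). So Nagao's average for `E_v` is that for the two-parameter family, with an error term `x ^ (- 1 / 2 + δ)` as for the
generalised Riemann hypothesis. The constants do not depend on `A`, `B`, `β`.

Example (part 1): if `A` is a polynomial in `T` only and `B = Z`, then `A_p(E) = 0`, so almost all the curves
`y ^ 2 = x ^ 3 + A(T) x + β(T) + v 0 + v 1 T` have Nagao's average `0`.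

Proof: modulo `p` the values `β(t) + v 0 + v 1 t` are pairwise independent for different `t`, and the traces are bounded by
Weil's bound, so the deviations of the `A_p(E_v)` have bounded second moments over all `v` modulo `p`. The random integers
are equidistributed modulo the products of two primes outside a very sparse set of moduli. This gives the second moments of
the sums over the primes in dyadic intervals; the maximum over all `x` is controlled by dyadic chaining.

Definitions used: `trF`, `nag1`, `nag2`, `devN` (file `K.lean`), `cubic` (file `L.lean`), `small`, `large`, `CloseT` (file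
`G.lean`) in `Pool.Agent.R318.TT`, and `PrV`, `Dist`, `arrays`, `wt`, `dval` in `Pool.Agent.R318.ST` (files `Fin1.lean`,
`Dig.lean`).

Library: helper459 (equidistribution of families given by digits, dyadic chaining), helper435 (Weil's bound). -/

set_option autoImplicit false

namespace Pool.Agent.Results.MP_60fb2a_nt.RandomMembers

open Pool.Agent.R318.ST Pool.Agent.R318.TT

/-- **Theorem.** (1) If `A` is a polynomial in `T` and `B = Z`, then the mean `nag2` of the traces over the plane is zero.

(2) Let `b ≥ 2`, `η > 0` and `0 < δ ≤ 1 / 2`. There is `W` such that for all nonzero integers `κ 0`, `κ 1` there are `C` and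
`X₀` with the following property. Let `A` and `B` be in `ℤ[T, Z]` and `β` in `ℤ[T]`. For all `k`, all `X ≥ X₀`, all integers
`c j` and all distributions `u j` of `k` digits in base `b` such that two independent copies of a digit differ with
probability at least `η` (`Dist`), the integers `v j = c j + κ j w j`, where `w j` are independent integers with independent
digits with the distributions `u j`, satisfy, with an exceptional probability of at most `C X ^ (- δ)`: for EVERY `x ≥ X` with
`x ^ W ≤ b ^ k` the sum of the `d_p log p` over the primes `p ≤ x` with `|d_p| ≤ p ^ ((1 - δ) / 2)` is at most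
`x ^ (1 / 2 + δ)` in absolute value, and at most `x ^ (2 δ)` primes up to `x` satisfy `|d_p| > p ^ ((1 - δ) / 2)` (`CloseT`),
where `d_p` (`devN`) is the difference of the mean of the traces of the curve `y ^ 2 = x ^ 3 + A x + B`,
`Z = β(T) + v 0 + v 1 T`, over `t` modulo `p`, and of the mean for all pairs `(t, z)` modulo `p`. -/
theorem result :
    (∀ (A : Polynomial ℤ) (p : ℕ), p.Prime →
      nag2 (cubic (Polynomial.aeval (MvPolynomial.X 0) A) (MvPolynomial.X 1)) p = 0) ∧
    ∀ (b : ℕ), 2 ≤ b → ∀ (η : ℝ), 0 < η → ∀ (δ : ℝ), 0 < δ → δ ≤ 1 / 2 → ∃ W : ℕ, 1 ≤ W ∧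
    ∀ κ : Fin 2 → ℤ, (∀ j, κ j ≠ 0) → ∃ (C : ℝ) (X₀ : ℕ), 0 < C ∧
    ∀ (A B : MvPolynomial (Fin 2) ℤ) (β : Polynomial ℤ) (k X : ℕ), X₀ ≤ X →
    ∀ (c : Fin 2 → ℤ) (u : Fin 2 → ℕ → ℕ → ℝ), (∀ j, Dist b k η (u j)) →
    PrV b k u (fun g => ¬ CloseT δ X W (b ^ k) (devN (cubic A B) β (fun j => c j + κ j * (dval b (g j) : ℕ)))) ≤
      C * (X : ℝ) ^ (-δ) :=
  ⟨nag2_zero, fun b hb η hη δ hδ hδ1 => mainE b hb η hη δ hδ hδ1⟩

end Pool.Agent.Results.MP_60fb2a_nt.RandomMembers
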